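import Mathlib

/-!
# Two-party communication: deterministic, public-coin randomized, and quantum with entanglement

Definitions for the question whether the deterministic communication complexity of
`F(x, y) = f(x ∧ y)` is bounded by a polynomial in its bounded-error quantum communication
complexity with prior entanglement.
-/

set_option autoImplicit false

namespace Pool.Agent.TH115.QC

/-- A deterministic two-party protocol (protocol tree) on inputs `x : X` of Alice and `y : Y` of
Bob.
* `leaf o`: the protocol stops with output `o`.
* `alice p s t`: Alice sends the bit `p x`; the protocol goes on with `t` if the bit is `1` and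
  with `s` if it is `0`.
* `bob p s t`: Bob sends the bit `p y`; the protocol goes on with `t` if the bit is `1` and with
  `s` if it is `0`. -/
inductive Prot (X Y : Type) : Type
  | leaf (o : Bool) : Prot X Y
  | alice (p : X → Bool) (s t : Prot X Y) : Prot X Y
  | bob (p : Y → Bool) (s t : Prot X Y) : Prot X Y

namespace Prot

variable {X Y : Type}

/-- The output of the protocol on the inputs `x` and `y`. -/
def eval : Prot X Y → X → Y → Bool
  | leaf o, _, _ => o
  | alice p s t, x, y => if p x = true then eval t x y else eval s x y
  | bob p s t, x, y => if p y = true then eval t x y else eval s x y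

/-- The number of bits exchanged in the worst case. -/
def depth : Prot X Y → ℕ
  | leaf _ => 0
  | alice _ s t => max (depth s) (depth t) + 1
  | bob _ s t => max (depth s) (depth t) + 1

end Prot

variable {X Y : Type}

/-- `detCC F`: the deterministic communication complexity `D(F)`, the least worst-case number of
bits exchanged by a deterministic protocol that outputs `F x y` on all inputs. -/
noncomputable def detCC (F : X → Y → Bool) : ℕ :=
  sInf {d | ∃ P : Prot X Y, P.depth ≤ d ∧ ∀ x y, P.eval x y = F x y}

/-- A public-coin randomized protocol: a protocol tree `tree r` for every outcome `r` of the public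
coins, the outcome `r` having probability `prob r`. -/
structure RProt (X Y : Type) where
  /-- the possible outcomes of the public coins -/
  R : Type
  [fin : Fintype R]
  [dec : DecidableEq R]
  /-- their probabilities -/
  prob : R → ℝ
  nonneg : ∀ r, 0 ≤ prob r
  total : ∑ r, prob r = 1
  /-- the protocol used when the public coins show `r` -/
  tree : R → Prot X Y

attribute [instance] RProt.fin RProt.dec

/-- The probability that the public-coin protocol `P` outputs `F x y` on the inputs `x`, `y`. -/
noncomputable def RProt.success (P : RProt X Y) (F : X → Y → Bool) (x : X) (y : Y) : ℝ :=
  ∑ r, if (P.tree r).eval x y = F x y then P.prob r else 0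

/-- `randCC F`: the public-coin randomized communication complexity `R_{1/3}(F)`, the least
worst-case number of bits exchanged by a public-coin protocol that outputs `F x y` with
probability at least `2/3` on all inputs. -/
noncomputable def randCC (F : X → Y → Bool) : ℕ :=
  sInf {d | ∃ P : RProt X Y, (∀ r, (P.tree r).depth ≤ d) ∧ ∀ x y, 2 / 3 ≤ P.success F x y}

/-- A quantum protocol with prior entanglement. Alice holds a register with the basis states `A`,
Bob holds a register with the basis states `B`, and there is one qubit (basis states `Bool`), the
channel, that is sent back and forth. At the beginning the two registers are in the arbitrary pure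
state `init` and the channel is in the state `|0⟩`. The unitary map number `t = 0, 1, 2, …` is
applied by Alice to her register and the channel if `t` is even (it may depend on `x`), and by Bob
to his register and the channel if `t` is odd (it may depend on `y`). The channel qubit is
sent to the other player between any two consecutive unitary maps. At the end both players measure
their registers and compute their outputs from the result of the measurement (and from their
inputs). -/
structure QProt (X Y : Type) where
  /-- the basis states of the register of Alice -/
  A : Type
  /-- the basis states of the register of Bob -/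
  B : Type
  [finA : Fintype A]
  [decA : DecidableEq A]
  [finB : Fintype B]
  [decB : DecidableEq B]
  /-- the prior entangled state -/
  init : A → B → ℂ
  init_unit : ∑ a, ∑ b, ‖init a b‖ ^ 2 = 1
  /-- the unitary maps of Alice -/
  UA : ℕ → X → Matrix (A × Bool) (A × Bool) ℂ
  UA_unitary : ∀ t x, UA t x ∈ Matrix.unitaryGroup (A × Bool) ℂ
  /-- the unitary maps of Bob -/
  UB : ℕ → Y → Matrix (B × Bool) (B × Bool) ℂ
  UB_unitary : ∀ t y, UB t y ∈ Matrix.unitaryGroup (B × Bool) ℂ
  /-- the output of Alice, when her input is `x` and her measurement gives `a` -/
  outA : X → A → Bool
  /-- the output of Bob, when his input is `y` and his measurement gives `b` -/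
  outB : Y → B → Bool

attribute [instance] QProt.finA QProt.decA QProt.finB QProt.decB

/-- The matrix `U` acts on the register of Alice and the channel. -/
noncomputable def actA {A B : Type} [Fintype A] (U : Matrix (A × Bool) (A × Bool) ℂ)
    (ψ : A → Bool → B → ℂ) : A → Bool → B → ℂ :=
  fun a c b => ∑ z : A × Bool, U (a, c) z * ψ z.1 z.2 b

/-- The matrix `U` acts on the register of Bob and the channel. -/
noncomputable def actB {A B : Type} [Fintype B] (U : Matrix (B × Bool) (B × Bool) ℂ)
    (ψ : A → Bool → B → ℂ) : A → Bool → B → ℂ :=
  fun a c b => ∑ z : B × Bool, U (b, c) z * ψ a z.2 z.1

/-- The state at the beginning: `init` on the registers, `|0⟩` on the channel. -/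
noncomputable def QProt.start (P : QProt X Y) : P.A → Bool → P.B → ℂ :=
  fun a c b => if c = false then P.init a b else 0

/-- The state after the unitary map number `t`, on the inputs `x`, `y`. -/
noncomputable def QProt.state (P : QProt X Y) (x : X) (y : Y) : ℕ → P.A → Bool → P.B → ℂ
  | 0 => actA (P.UA 0 x) P.start
  | t + 1 =>
    if Even (t + 1) then actA (P.UA (t + 1) x) (P.state x y t)
    else actB (P.UB (t + 1) y) (P.state x y t)

/-- The probability that, on the inputs `x`, `y`, the outputs of Alice and of Bob both are `F x y`
when the protocol `P` stops after the channel qubit has been sent `q` times. -/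
noncomputable def QProt.success (P : QProt X Y) (q : ℕ) (F : X → Y → Bool) (x : X) (y : Y) : ℝ :=
  ∑ a, ∑ c, ∑ b,
    if P.outA x a = F x y ∧ P.outB y b = F x y then ‖P.state x y q a c b‖ ^ 2 else 0

/-- `quantCC F`: the quantum communication complexity `Q*_{1/3}(F)` with prior entanglement, the
least number of qubits exchanged by a quantum protocol with prior entanglement in which, on all
inputs, both players output `F x y` with probability at least `2/3`. -/
noncomputable def quantCC (F : X → Y → Bool) : ℕ :=
  sInf {q | ∃ P : QProt X Y, ∀ x y, 2 / 3 ≤ P.success q F x y}

/-- `andComp f`: the function `F(x, y) = f(x ∧ y)`, where `x ∧ y` is the coordinatewise AND. -/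
def andComp {n : ℕ} (f : (Fin n → Bool) → Bool) : (Fin n → Bool) → (Fin n → Bool) → Bool :=
  fun x y => f (fun i => x i && y i)

end Pool.Agent.TH115.QC
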