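import Mathlib
import Pool.Agent.TH115.QC.Defs

/-!
# A public-coin protocol can be simulated by a quantum protocol with prior entanglement
-/

set_option autoImplicit false

namespace Pool.Agent.TH115.QC

open Finset

variable {X Y : Type}

/-! ### Permutation matrices acting on superpositions of basis states -/

section Ens

variable {A B R : Type} [Fintype A] [DecidableEq A] [Fintype B] [DecidableEq B] [Fintype R]

/-- The matrix of a permutation of the basis states. -/
def pm {α : Type} [DecidableEq α] (π : Equiv.Perm α) : Matrix α α ℂ :=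
  fun i j => if π j = i then 1 else 0

theorem pm_unitary {α : Type} [Fintype α] [DecidableEq α] (π : Equiv.Perm α) :
    pm π ∈ Matrix.unitaryGroup α ℂ := by
  rw [Matrix.mem_unitaryGroup_iff]
  ext i j
  rw [Matrix.mul_apply]
  simp only [pm, Matrix.star_apply, Matrix.one_apply]
  by_cases h : i = j
  · subst h
    rw [Finset.sum_eq_single (π.symm i)]
    · simp
    · intro b _ hb
      have : π b ≠ i := fun e => hb (by rw [← e]; simp)
      simp [this]
    · simp
  · rw [if_neg h]
    apply Finset.sum_eq_zero
    intro b _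
    by_cases h1 : π b = i
    · have : π b ≠ j := fun e => h (h1.symm.trans e)
      simp [this]
    · simp [h1]

/-- The superposition of the basis states `s r` with the amplitudes `amp r`. -/
noncomputable def ens (amp : R → ℂ) (s : R → A × Bool × B) : A → Bool → B → ℂ :=
  fun a c b => ∑ r, if s r = (a, c, b) then amp r else 0

/-- `π` acts on the register of Alice and the channel of a basis state. -/
def moveA (π : Equiv.Perm (A × Bool)) (z : A × Bool × B) : A × Bool × B :=
  ((π (z.1, z.2.1)).1, (π (z.1, z.2.1)).2, z.2.2)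

/-- `π` acts on the register of Bob and the channel of a basis state. -/
def moveB (π : Equiv.Perm (B × Bool)) (z : A × Bool × B) : A × Bool × B :=
  (z.1, (π (z.2.2, z.2.1)).2, (π (z.2.2, z.2.1)).1)

omit [DecidableEq A] [DecidableEq B] [Fintype R] [Fintype A] [Fintype B] in
theorem moveA_eq_iff (π : Equiv.Perm (A × Bool)) (z : A × Bool × B) (a : A) (c : Bool) (b : B) :
    moveA π z = (a, c, b) ↔ π (z.1, z.2.1) = (a, c) ∧ z.2.2 = b := by
  unfold moveA
  constructor
  · intro h
    simp only [Prod.mk.injEq] at h
    exact ⟨Prod.ext h.1 h.2.1, h.2.2⟩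
  · rintro ⟨h1, h2⟩
    rw [h1, h2]

omit [DecidableEq A] [DecidableEq B] [Fintype R] [Fintype A] [Fintype B] in
theorem moveB_eq_iff (π : Equiv.Perm (B × Bool)) (z : A × Bool × B) (a : A) (c : Bool) (b : B) :
    moveB π z = (a, c, b) ↔ π (z.2.2, z.2.1) = (b, c) ∧ z.1 = a := by
  unfold moveB
  constructor
  · intro h
    simp only [Prod.mk.injEq] at h
    exact ⟨Prod.ext h.2.2 h.2.1, h.1⟩
  · rintro ⟨h1, h2⟩
    rw [h1, h2]

omit [Fintype B] [Fintype R] in
theorem basisA (π : Equiv.Perm (A × Bool)) (v : ℂ) (a : A) (c : Bool) (b : B)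
    (z : A × Bool × B) :
    ∑ w : A × Bool, pm π (a, c) w * (if z = (w.1, w.2, b) then v else 0) =
      if moveA π z = (a, c, b) then v else 0 := by
  rw [Finset.sum_eq_single (z.1, z.2.1)]
  · by_cases h1 : π (z.1, z.2.1) = (a, c)
    · by_cases h2 : z.2.2 = b
      · rw [if_pos ((moveA_eq_iff π z a c b).2 ⟨h1, h2⟩)]
        have h3 : z = (z.1, z.2.1, b) := Prod.ext rfl (Prod.ext rfl h2)
        have h4 : (if z = ((z.1, z.2.1).1, (z.1, z.2.1).2, b) then v else 0) = v := if_pos h3
        rw [h4]
        simp [pm, h1]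
      · rw [if_neg (fun h => h2 ((moveA_eq_iff π z a c b).1 h).2)]
        have h3 : ¬ z = (z.1, z.2.1, b) := fun h => h2 (congrArg (fun u => u.2.2) h)
        have h4 : (if z = ((z.1, z.2.1).1, (z.1, z.2.1).2, b) then v else 0) = 0 := if_neg h3
        rw [h4, mul_zero]
    · rw [if_neg (fun h => h1 ((moveA_eq_iff π z a c b).1 h).1)]
      have : pm π (a, c) (z.1, z.2.1) = 0 := if_neg h1
      rw [this, zero_mul]
  · intro w _ hw
    rw [if_neg, mul_zero]
    intro h
    apply hw
    rw [h]
  · simp

omit [Fintype A] [Fintype R] in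
theorem basisB (π : Equiv.Perm (B × Bool)) (v : ℂ) (a : A) (c : Bool) (b : B)
    (z : A × Bool × B) :
    ∑ w : B × Bool, pm π (b, c) w * (if z = (a, w.2, w.1) then v else 0) =
      if moveB π z = (a, c, b) then v else 0 := by
  rw [Finset.sum_eq_single (z.2.2, z.2.1)]
  · by_cases h1 : π (z.2.2, z.2.1) = (b, c)
    · by_cases h2 : z.1 = a
      · rw [if_pos ((moveB_eq_iff π z a c b).2 ⟨h1, h2⟩)]
        have h3 : z = (a, z.2.1, z.2.2) := Prod.ext h2 (Prod.ext rfl rfl)
        have h4 : (if z = (a, (z.2.2, z.2.1).2, (z.2.2, z.2.1).1) then v else 0) = v := if_pos h3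
        rw [h4]
        simp [pm, h1]
      · rw [if_neg (fun h => h2 ((moveB_eq_iff π z a c b).1 h).2)]
        have h3 : ¬ z = (a, z.2.1, z.2.2) := fun h => h2 (congrArg (fun u => u.1) h)
        have h4 : (if z = (a, (z.2.2, z.2.1).2, (z.2.2, z.2.1).1) then v else 0) = 0 := if_neg h3
        rw [h4, mul_zero]
    · rw [if_neg (fun h => h1 ((moveB_eq_iff π z a c b).1 h).1)]
      have : pm π (b, c) (z.2.2, z.2.1) = 0 := if_neg h1
      rw [this, zero_mul]
  · intro w _ hw
    rw [if_neg, mul_zero]
    intro h
    apply hw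
    rw [h]
  · simp

omit [Fintype B] in
theorem actA_ens (π : Equiv.Perm (A × Bool)) (amp : R → ℂ) (s : R → A × Bool × B) :
    actA (pm π) (ens amp s) = ens amp (fun r => moveA π (s r)) := by
  funext a c b
  unfold actA ens
  simp_rw [Finset.mul_sum]
  rw [Finset.sum_comm]
  exact Finset.sum_congr rfl fun r _ => basisA π (amp r) a c b (s r)

omit [Fintype A] in
theorem actB_ens (π : Equiv.Perm (B × Bool)) (amp : R → ℂ) (s : R → A × Bool × B) :
    actB (pm π) (ens amp s) = ens amp (fun r => moveB π (s r)) := by
  funext a c b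
  unfold actB ens
  simp_rw [Finset.mul_sum]
  rw [Finset.sum_comm]
  exact Finset.sum_congr rfl fun r _ => basisB π (amp r) a c b (s r)

omit [Fintype A] [Fintype B] in
theorem norm_ens_sq (p : R → ℝ) (hp : ∀ r, 0 ≤ p r) (s : R → A × Bool × B)
    (hs : Function.Injective s) (a : A) (c : Bool) (b : B) :
    ‖ens (fun r => ((Real.sqrt (p r) : ℝ) : ℂ)) s a c b‖ ^ 2 =
      ∑ r, if s r = (a, c, b) then p r else 0 := by
  unfold ens
  by_cases h : ∃ r, s r = (a, c, b)
  · obtain ⟨r, hr⟩ := h
    have key : ∀ r', s r' = (a, c, b) ↔ r' = r := by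
      intro r'
      constructor
      · intro h'
        exact hs (h'.trans hr.symm)
      · rintro rfl
        exact hr
    classical
    simp only [key, Finset.sum_ite_eq', Finset.mem_univ, if_true]
    rw [Complex.norm_real, Real.norm_of_nonneg (Real.sqrt_nonneg _), Real.sq_sqrt (hp r)]
  · have : ∀ r, ¬ s r = (a, c, b) := fun r hr => h ⟨r, hr⟩
    simp [this]

end Ens

/-! ### The memory -/

/-- The memory cells of a player. -/
abbrev Mem (N : ℕ) : Type := Fin N → Bool

/-- The content of the cell number `i`. -/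
def cell {N : ℕ} (m : Mem N) (i : ℕ) : Bool := if h : i < N then m ⟨i, h⟩ else false

/-- Add the bit `v` to the cell number `i`. -/
def addCell {N : ℕ} (m : Mem N) (i : ℕ) (v : Bool) : Mem N :=
  fun j => if (j : ℕ) = i then xor (m j) v else m j

/-- The first `t` cells. -/
def mask {N : ℕ} (m : Mem N) (t : ℕ) : Mem N := fun j => if (j : ℕ) < t then m j else false

theorem addCell_addCell {N : ℕ} (m : Mem N) (i : ℕ) (v : Bool) :
    addCell (addCell m i v) i v = m := by
  funext j
  unfold addCell
  by_cases h : (j : ℕ) = i <;> simp [h]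

theorem mask_addCell {N : ℕ} (m : Mem N) (t : ℕ) (v : Bool) :
    mask (addCell m t v) t = mask m t := by
  funext j
  unfold mask addCell
  by_cases h : (j : ℕ) < t
  · have : (j : ℕ) ≠ t := h.ne
    simp [this]
  · simp [h]

variable {R : Type}

/-- Add the channel bit to the cell number `i`. -/
def p1 (R : Type) (N i : ℕ) : Equiv.Perm ((R × Mem N) × Bool) :=
  Function.Involutive.toPerm (fun z => ((z.1.1, addCell z.1.2 i z.2), z.2)) (by
    rintro ⟨⟨r, m⟩, c⟩
    simp [addCell_addCell])

/-- Add a function of the memory to the channel bit. -/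
def p2 {R : Type} {N : ℕ} (g : R → Mem N → Bool) : Equiv.Perm ((R × Mem N) × Bool) :=
  Function.Involutive.toPerm (fun z => (z.1, xor z.2 (g z.1.1 z.1.2))) (by
    rintro ⟨⟨r, m⟩, c⟩
    simp)

/-- Add a function of the first `t` cells to the cell number `t`. -/
def p3 {R : Type} {N : ℕ} (t : ℕ) (g : R → Mem N → Bool) : Equiv.Perm ((R × Mem N) × Bool) :=
  Function.Involutive.toPerm
    (fun z => ((z.1.1, addCell z.1.2 t (g z.1.1 (mask z.1.2 t))), z.2)) (by
    rintro ⟨⟨r, m⟩, c⟩
    simp [mask_addCell, addCell_addCell])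

theorem p1_apply (R : Type) (N i : ℕ) (z : (R × Mem N) × Bool) :
    p1 R N i z = ((z.1.1, addCell z.1.2 i z.2), z.2) := rfl

theorem p2_apply {R : Type} {N : ℕ} (g : R → Mem N → Bool) (z : (R × Mem N) × Bool) :
    p2 g z = (z.1, xor z.2 (g z.1.1 z.1.2)) := rfl

theorem p3_apply {R : Type} {N : ℕ} (t : ℕ) (g : R → Mem N → Bool) (z : (R × Mem N) × Bool) :
    p3 t g z = ((z.1.1, addCell z.1.2 t (g z.1.1 (mask z.1.2 t))), z.2) := rfl

/-- The player records the channel bit number `t - 1` and clears the channel. -/
def recv (R : Type) (N : ℕ) (t : ℕ) : Equiv.Perm ((R × Mem N) × Bool) :=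
  if t = 0 then Equiv.refl _ else (p1 R N (t - 1)).trans (p2 (fun _ m => cell m (t - 1)))

/-- The step number `t` of a player that sends the bit `g r m`. -/
def stepPerm {R : Type} {N : ℕ} (t : ℕ) (g : R → Mem N → Bool) :
    Equiv.Perm ((R × Mem N) × Bool) :=
  ((recv R N t).trans (p2 g)).trans (p3 t g)

theorem stepPerm_apply {R : Type} {N : ℕ} (t : ℕ) (g : R → Mem N → Bool)
    (z : (R × Mem N) × Bool) : stepPerm t g z = p3 t g (p2 g (recv R N t z)) := rfl

theorem recv_zero (R : Type) (N : ℕ) (z : (R × Mem N) × Bool) : recv R N 0 z = z := rfl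

theorem recv_succ (R : Type) (N t : ℕ) (z : (R × Mem N) × Bool) :
    recv R N (t + 1) z = p2 (fun _ m => cell m t) (p1 R N t z) := rfl

/-! ### The transcript -/

/-- The first `t` bits of the transcript, when the bit number `t` is the function `msg t` of the
bits before it. -/
def hist {N : ℕ} (msg : ℕ → Mem N → Bool) : ℕ → Mem N
  | 0 => fun _ => false
  | t + 1 => addCell (hist msg t) t (msg t (hist msg t))

theorem hist_ge {N : ℕ} (msg : ℕ → Mem N → Bool) (t : ℕ) (j : Fin N) (h : t ≤ (j : ℕ)) :
    hist msg t j = false := by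
  induction t with
  | zero => rfl
  | succ t ih =>
    unfold hist addCell
    have h1 : (j : ℕ) ≠ t := by omega
    rw [if_neg h1]
    exact ih (by omega)

theorem mask_hist {N : ℕ} (msg : ℕ → Mem N → Bool) (t : ℕ) :
    mask (hist msg t) t = hist msg t := by
  funext j
  unfold mask
  by_cases h : (j : ℕ) < t
  · simp [h]
  · rw [if_neg h, hist_ge msg t j (by omega)]

theorem cell_hist_succ {N : ℕ} (msg : ℕ → Mem N → Bool) (t : ℕ) (h : t < N) :
    cell (hist msg (t + 1)) t = msg t (hist msg t) := by
  unfold cell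
  rw [dif_pos h]
  show addCell (hist msg t) t (msg t (hist msg t)) ⟨t, h⟩ = _
  unfold addCell
  rw [if_pos rfl, hist_ge msg t ⟨t, h⟩ le_rfl]
  simp

theorem cell_hist_lt {N : ℕ} (msg : ℕ → Mem N → Bool) (t k : ℕ) (h : t < N) :
    cell (hist msg (t + 1 + k)) t = msg t (hist msg t) := by
  induction k with
  | zero => exact cell_hist_succ msg t h
  | succ k ih =>
    rw [← ih]
    unfold cell
    rw [dif_pos h, dif_pos h]
    show addCell (hist msg (t + 1 + k)) (t + 1 + k) _ ⟨t, h⟩ = _
    unfold addCell
    rw [if_neg]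
    show t ≠ t + 1 + k
    omega

theorem stepPerm_zero {N : ℕ} (g : R → Mem N → Bool) (msg : ℕ → Mem N → Bool) (r : R)
    (hg : ∀ m, g r m = msg 0 m) :
    stepPerm 0 g ((r, hist msg 0), false) = ((r, hist msg 1), msg 0 (hist msg 0)) := by
  rw [stepPerm_apply, recv_zero, p2_apply, p3_apply]
  simp only [mask_hist, hg, Bool.false_xor]
  rfl

theorem stepPerm_succ {N : ℕ} (g : R → Mem N → Bool) (msg : ℕ → Mem N → Bool) (r : R) (t : ℕ)
    (ht : t < N) (hg : ∀ m, g r m = msg (t + 1) m) :
    stepPerm (t + 1) g ((r, hist msg t), msg t (hist msg t)) =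
      ((r, hist msg (t + 2)), msg (t + 1) (hist msg (t + 1))) := by
  have e1 : addCell (hist msg t) t (msg t (hist msg t)) = hist msg (t + 1) := rfl
  have e2 : addCell (hist msg (t + 1)) (t + 1) (msg (t + 1) (hist msg (t + 1))) =
    hist msg (t + 2) := rfl
  rw [stepPerm_apply, recv_succ, p1_apply, p2_apply, p2_apply, p3_apply]
  simp only
  rw [e1, cell_hist_succ msg t ht, mask_hist, hg, e2, Bool.xor_self, Bool.false_xor]

/-! ### The simulation -/

section Sim

variable {N : ℕ} [Fintype R] [DecidableEq R]

/-- The quantum protocol that simulates the public-coin protocol in which Alice sends the bit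
`ga x r m` and Bob sends the bit `gb y r m`, when the transcript so far is `m`. -/
noncomputable def simProt (N : ℕ) (p : R → ℝ) (hp : ∀ r, 0 ≤ p r) (hp1 : ∑ r, p r = 1)
    (ga : ℕ → X → R → Mem N → Bool) (gb : ℕ → Y → R → Mem N → Bool)
    (oa : R → Mem N → Bool) : QProt X Y where
  A := R × Mem N
  B := R × Mem N
  init := fun a b => if a = b ∧ a.2 = (fun _ => false) then ((Real.sqrt (p a.1) : ℝ) : ℂ) else 0
  init_unit := by
    have h1 : ∀ a : R × Mem N, ∑ b : R × Mem N,
        ‖(if a = b ∧ a.2 = (fun _ => false) then ((Real.sqrt (p a.1) : ℝ) : ℂ) else 0)‖ ^ 2 =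
        if a.2 = (fun _ => false) then p a.1 else 0 := by
      intro a
      rw [Finset.sum_eq_single a]
      · by_cases h : a.2 = (fun _ => false)
        · rw [if_pos ⟨rfl, h⟩, if_pos h, Complex.norm_real,
            Real.norm_of_nonneg (Real.sqrt_nonneg _), Real.sq_sqrt (hp _)]
        · rw [if_neg (fun e => h e.2), if_neg h]
          simp
      · intro b _ hb
        rw [if_neg (fun e => hb e.1.symm)]
        simp
      · simp
    rw [Finset.sum_congr rfl fun a _ => h1 a, Fintype.sum_prod_type]
    simp [hp1]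
  UA := fun t x => pm (stepPerm t (ga t x))
  UA_unitary := fun t x => pm_unitary _
  UB := fun t y => pm (stepPerm t (gb t y))
  UB_unitary := fun t y => pm_unitary _
  outA := fun _ a => oa a.1 a.2
  outB := fun _ b => oa b.1 b.2

variable (p : R → ℝ) (hp : ∀ r, 0 ≤ p r) (hp1 : ∑ r, p r = 1)
  (ga : ℕ → X → R → Mem N → Bool) (gb : ℕ → Y → R → Mem N → Bool) (oa : R → Mem N → Bool)

/-- The message number `t`. -/
def msgOf (ga : ℕ → X → R → Mem N → Bool) (gb : ℕ → Y → R → Mem N → Bool) (x : X) (y : Y)
    (r : R) (t : ℕ) (m : Mem N) : Bool := if Even t then ga t x r m else gb t y r m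

/-- The classical state after the step number `t`. -/
def cstate (ga : ℕ → X → R → Mem N → Bool) (gb : ℕ → Y → R → Mem N → Bool) (x : X) (y : Y)
    (t : ℕ) (r : R) : (R × Mem N) × Bool × (R × Mem N) :=
  ((r, if Even t then hist (msgOf ga gb x y r) (t + 1) else hist (msgOf ga gb x y r) t),
    msgOf ga gb x y r t (hist (msgOf ga gb x y r) t),
   (r, if Even t then hist (msgOf ga gb x y r) t else hist (msgOf ga gb x y r) (t + 1)))

/-- The initial state as a superposition of basis states. -/
theorem start_sim :
    (fun (a : R × Mem N) (c : Bool) (b : R × Mem N) => if c = false then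
      (if a = b ∧ a.2 = (fun _ => false) then ((Real.sqrt (p a.1) : ℝ) : ℂ) else 0) else 0) =
        ens (fun r => ((Real.sqrt (p r) : ℝ) : ℂ))
          (fun r => (((r, fun _ => false), false, (r, fun _ => false)) :
            (R × Mem N) × Bool × (R × Mem N))) := by
  funext a c b
  unfold ens
  by_cases h : c = false ∧ a = b ∧ a.2 = (fun _ => false)
  · obtain ⟨h1, h2, h3⟩ := h
    rw [if_pos h1, if_pos ⟨h2, h3⟩, Finset.sum_eq_single a.1]
    · rw [if_pos]
      subst h2
      rw [h1]
      obtain ⟨a1, a2⟩ := a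
      simp only at h3
      rw [h3]
    · intro r _ hr
      rw [if_neg]
      intro e
      apply hr
      have := congrArg (fun z => z.1.1) e
      exact this
    · simp
  · have hL : (if c = false then (if a = b ∧ a.2 = (fun _ => false) then
        ((Real.sqrt (p a.1) : ℝ) : ℂ) else 0) else 0) = 0 := by
      by_cases h1 : c = false
      · rw [if_pos h1, if_neg (fun e => h ⟨h1, e⟩)]
      · rw [if_neg h1]
    rw [hL]
    symm
    apply Finset.sum_eq_zero
    intro r _
    rw [if_neg]
    intro e
    apply h
    simp only [Prod.mk.injEq] at e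
    obtain ⟨e1, e2, e3⟩ := e
    subst e1 e2 e3
    exact ⟨rfl, rfl, rfl⟩

theorem state_sim (x : X) (y : Y) (t : ℕ) (ht : t < N) :
    (simProt N p hp hp1 ga gb oa).state x y t =
      ens (fun r => ((Real.sqrt (p r) : ℝ) : ℂ)) (cstate ga gb x y t) := by
  induction t with
  | zero =>
    have h1 : (simProt N p hp hp1 ga gb oa).state x y 0 =
      actA (A := R × Mem N) (B := R × Mem N) (pm (stepPerm 0 (ga 0 x)))
        (fun (a : R × Mem N) (c : Bool) (b : R × Mem N) => if c = false then
      (if a = b ∧ a.2 = (fun _ => false) then ((Real.sqrt (p a.1) : ℝ) : ℂ) else 0) else 0) := rfl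
    refine h1.trans ?_
    rw [start_sim p, actA_ens]
    congr 1
    funext r
    have hg : ∀ m, ga 0 x r m = msgOf ga gb x y r 0 m := by
      intro m
      simp [msgOf]
    have key := stepPerm_zero (ga 0 x) (msgOf ga gb x y r) r hg
    have e0 : (fun _ => false : Mem N) = hist (msgOf ga gb x y r) 0 := rfl
    unfold moveA cstate
    simp only
    rw [e0, key]
    simp
  | succ t ih =>
    have ih' := ih (by omega)
    by_cases he : Even (t + 1)
    · have ho : ¬ Even t := fun h => by
        rw [Nat.even_add_one] at he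
        exact he h
      have h1 : (simProt N p hp hp1 ga gb oa).state x y (t + 1) =
          actA (A := R × Mem N) (B := R × Mem N) (pm (stepPerm (t + 1) (ga (t + 1) x)))
            ((simProt N p hp hp1 ga gb oa).state x y t) := if_pos he
      refine h1.trans ?_
      refine (congrArg (actA (A := R × Mem N) (B := R × Mem N)
        (pm (stepPerm (t + 1) (ga (t + 1) x)))) ih').trans ?_
      rw [actA_ens]
      congr 1
      funext r
      have hg : ∀ m, ga (t + 1) x r m = msgOf ga gb x y r (t + 1) m := by
        intro m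
        simp [msgOf, he]
      have key := stepPerm_succ (ga (t + 1) x) (msgOf ga gb x y r) r t (by omega) hg
      unfold moveA cstate
      simp only [if_neg ho, if_pos he]
      rw [key]
    · have hev : Even t := by
        rw [Nat.even_add_one, not_not] at he
        exact he
      have h1 : (simProt N p hp hp1 ga gb oa).state x y (t + 1) =
          actB (A := R × Mem N) (B := R × Mem N) (pm (stepPerm (t + 1) (gb (t + 1) y)))
            ((simProt N p hp hp1 ga gb oa).state x y t) := if_neg he
      refine h1.trans ?_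
      refine (congrArg (actB (A := R × Mem N) (B := R × Mem N)
        (pm (stepPerm (t + 1) (gb (t + 1) y)))) ih').trans ?_
      rw [actB_ens]
      congr 1
      funext r
      have hg : ∀ m, gb (t + 1) y r m = msgOf ga gb x y r (t + 1) m := by
        intro m
        simp [msgOf, he]
      have key := stepPerm_succ (gb (t + 1) y) (msgOf ga gb x y r) r t (by omega) hg
      unfold moveB cstate
      simp only [if_neg he, if_pos hev]
      rw [key]

theorem success_sim (F : X → Y → Bool) (x : X) (y : Y) (q : ℕ) (hq : q < N) :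
    (simProt N p hp hp1 ga gb oa).success q F x y =
      ∑ r, if oa r (cstate ga gb x y q r).1.2 = F x y ∧ oa r (cstate ga gb x y q r).2.2.2 = F x y
        then p r else 0 := by
  have hinj : Function.Injective (cstate ga gb x y q) := by
    intro r r' h
    have := congrArg (fun z => z.1.1) h
    exact this
  unfold QProt.success
  rw [state_sim p hp hp1 ga gb oa x y q hq]
  have h1 : ∀ (a : R × Mem N) (c : Bool) (b : R × Mem N),
      (if (simProt N p hp hp1 ga gb oa).outA x a = F x y ∧
        (simProt N p hp hp1 ga gb oa).outB y b = F x y then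
        ‖ens (fun r => ((Real.sqrt (p r) : ℝ) : ℂ)) (cstate ga gb x y q) a c b‖ ^ 2 else 0) =
      ∑ r, if cstate ga gb x y q r = (a, c, b) then
        (if oa r (cstate ga gb x y q r).1.2 = F x y ∧
          oa r (cstate ga gb x y q r).2.2.2 = F x y then p r else 0) else 0 := by
    intro a c b
    rw [norm_ens_sq p hp (cstate ga gb x y q) hinj]
    show (if oa a.1 a.2 = F x y ∧ oa b.1 b.2 = F x y then _ else (0 : ℝ)) = _
    by_cases h : oa a.1 a.2 = F x y ∧ oa b.1 b.2 = F x y
    · rw [if_pos h]
      refine Finset.sum_congr rfl fun r _ => ?_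
      by_cases h2 : cstate ga gb x y q r = (a, c, b)
      · rw [if_pos h2, if_pos h2]
        have hr : r = a.1 := by
          have := congrArg (fun z => z.1.1) h2
          exact this
        have hr' : r = b.1 := by
          have := congrArg (fun z => z.2.2.1) h2
          exact this
        rw [h2, if_pos]
        refine ⟨?_, ?_⟩
        · rw [hr]; exact h.1
        · rw [hr']; exact h.2
      · rw [if_neg h2, if_neg h2]
    · rw [if_neg h]
      symm
      apply Finset.sum_eq_zero
      intro r _
      by_cases h2 : cstate ga gb x y q r = (a, c, b)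
      · rw [if_pos h2, if_neg]
        have hr : r = a.1 := by
          have := congrArg (fun z => z.1.1) h2
          exact this
        have hr' : r = b.1 := by
          have := congrArg (fun z => z.2.2.1) h2
          exact this
        rw [h2]
        rintro ⟨h3, h4⟩
        apply h
        refine ⟨?_, ?_⟩
        · rw [← hr]; exact h3
        · rw [← hr']; exact h4
      · rw [if_neg h2]
  have h2 : ∀ (f : (R × Mem N) × Bool × (R × Mem N) → ℝ),
      ∑ a : R × Mem N, ∑ c : Bool, ∑ b : R × Mem N, f (a, c, b) = ∑ z, f z := by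
    intro f
    rw [Fintype.sum_prod_type f]
    exact Finset.sum_congr rfl fun a _ => (Fintype.sum_prod_type (fun w => f (a, w))).symm
  have h3 : (∑ a : R × Mem N, ∑ c : Bool, ∑ b : R × Mem N,
      (if (simProt N p hp hp1 ga gb oa).outA x a = F x y ∧
        (simProt N p hp hp1 ga gb oa).outB y b = F x y then
        ‖ens (fun r => ((Real.sqrt (p r) : ℝ) : ℂ)) (cstate ga gb x y q) a c b‖ ^ 2 else 0)) =
      ∑ a : R × Mem N, ∑ c : Bool, ∑ b : R × Mem N,
      ∑ r, if cstate ga gb x y q r = (a, c, b) then
        (if oa r (cstate ga gb x y q r).1.2 = F x y ∧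
          oa r (cstate ga gb x y q r).2.2.2 = F x y then p r else 0) else 0 :=
    Finset.sum_congr rfl fun a _ => Finset.sum_congr rfl fun c _ =>
      Finset.sum_congr rfl fun b _ => h1 a c b
  refine Eq.trans h3 ?_
  refine Eq.trans (h2 (fun z => ∑ r, if cstate ga gb x y q r = z then
        (if oa r (cstate ga gb x y q r).1.2 = F x y ∧
          oa r (cstate ga gb x y q r).2.2.2 = F x y then p r else 0) else 0)) ?_
  rw [Finset.sum_comm]
  refine Finset.sum_congr rfl fun r _ => ?_
  simp

end Sim

end Pool.Agent.TH115.QC
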