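import Mathlib
import Pool.Agent.TH115.QC.Sim

/-!
# Protocol trees as alternating protocols; `Q* ≤ 2 R`
-/

set_option autoImplicit false

namespace Pool.Agent.TH115.QC

open Finset

variable {X Y : Type}

namespace Prot

/-- The protocol after the bit `b` has been sent. -/
def child : Prot X Y → Bool → Prot X Y
  | leaf o, _ => leaf o
  | alice _ s t, b => if b = true then t else s
  | bob _ s t, b => if b = true then t else s

/-- The bit of Alice at the root. -/
def bitA : Prot X Y → X → Bool
  | alice p _ _, x => p x
  | _, _ => false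

/-- The bit of Bob at the root. -/
def bitB : Prot X Y → Y → Bool
  | bob p _ _, y => p y
  | _, _ => false

/-- The output at a leaf. -/
def label : Prot X Y → Bool
  | leaf o => o
  | _ => false

theorem eval_child (P : Prot X Y) (x : X) (y : Y) :
    (P.child (P.bitA x || P.bitB y)).eval x y = P.eval x y := by
  cases P with
  | leaf o => rfl
  | alice p s t => by_cases h : p x = true <;> simp [child, bitA, bitB, eval, h]
  | bob p s t => by_cases h : p y = true <;> simp [child, bitA, bitB, eval, h]

theorem depth_child (P : Prot X Y) (b : Bool) : (P.child b).depth ≤ P.depth - 1 := by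
  cases P with
  | leaf o => simp [child, depth]
  | alice p s t => cases b <;> simp [child, depth]
  | bob p s t => cases b <;> simp [child, depth]

theorem label_eq (P : Prot X Y) (h : P.depth = 0) (x : X) (y : Y) : P.label = P.eval x y := by
  cases P with
  | leaf o => rfl
  | alice p s t => simp [depth] at h
  | bob p s t => simp [depth] at h

/-- The node reached after `2 i` bits of the alternating transcript `m`. -/
def node (P : Prot X Y) {N : ℕ} (m : Mem N) : ℕ → Prot X Y
  | 0 => P
  | i + 1 => child (node P m i) (cell m (2 * i) || cell m (2 * i + 1))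

/-- The node reached after `i` steps on the inputs `x`, `y`. -/
def path (P : Prot X Y) (x : X) (y : Y) : ℕ → Prot X Y
  | 0 => P
  | i + 1 => child (path P x y i) ((path P x y i).bitA x || (path P x y i).bitB y)

theorem eval_path (P : Prot X Y) (x : X) (y : Y) (i : ℕ) :
    (P.path x y i).eval x y = P.eval x y := by
  induction i with
  | zero => rfl
  | succ i ih =>
    show (child (path P x y i) _).eval x y = _
    rw [eval_child, ih]

theorem depth_path (P : Prot X Y) (x : X) (y : Y) (i : ℕ) :
    (P.path x y i).depth ≤ P.depth - i := by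
  induction i with
  | zero => exact le_rfl
  | succ i ih =>
    show (child (path P x y i) _).depth ≤ _
    exact (depth_child _ _).trans (by omega)

end Prot

/-- The bits of Alice in the alternating form of the trees `T r`. -/
def gA {R : Type} (T : R → Prot X Y) (N : ℕ) : ℕ → X → R → Mem N → Bool :=
  fun t x r m => ((T r).node m (t / 2)).bitA x

/-- The bits of Bob in the alternating form of the trees `T r`. -/
def gB {R : Type} (T : R → Prot X Y) (N : ℕ) : ℕ → Y → R → Mem N → Bool :=
  fun t y r m => ((T r).node m (t / 2)).bitB y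

theorem node_hist {R : Type} (T : R → Prot X Y) (N : ℕ) (x : X) (y : Y) (r : R) (i t : ℕ)
    (hi : 2 * i ≤ N) (ht : 2 * i ≤ t) :
    (T r).node (hist (msgOf (gA T N) (gB T N) x y r) t) i = (T r).path x y i := by
  induction i generalizing t with
  | zero => rfl
  | succ i ih =>
    set msg := msgOf (gA T N) (gB T N) x y r with hmsg
    show Prot.child ((T r).node (hist msg t) i)
      (cell (hist msg t) (2 * i) || cell (hist msg t) (2 * i + 1)) = _
    have e1 : cell (hist msg t) (2 * i) = ((T r).path x y i).bitA x := by
      obtain ⟨k, rfl⟩ : ∃ k, t = 2 * i + 1 + k := ⟨t - (2 * i + 1), by omega⟩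
      rw [cell_hist_lt msg (2 * i) k (by omega), hmsg]
      unfold msgOf
      rw [if_pos (even_two_mul i)]
      unfold gA
      have : 2 * i / 2 = i := by omega
      rw [this]
      have h2 := ih (2 * i) (by omega) le_rfl
      rw [← h2, hmsg]
      rfl
    have e2 : cell (hist msg t) (2 * i + 1) = ((T r).path x y i).bitB y := by
      obtain ⟨k, rfl⟩ : ∃ k, t = 2 * i + 1 + 1 + k := ⟨t - (2 * i + 1 + 1), by omega⟩
      rw [cell_hist_lt msg (2 * i + 1) k (by omega), hmsg]
      unfold msgOf
      rw [if_neg (by rw [Nat.not_even_iff_odd]; exact odd_two_mul_add_one i)]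
      unfold gB
      have : (2 * i + 1) / 2 = i := by omega
      rw [this]
      have h2 := ih (2 * i + 1) (by omega) (by omega)
      rw [← h2, hmsg]
      rfl
    rw [e1, e2, ih t (by omega) (by omega)]
    rfl

/-- A public-coin protocol that exchanges at most `d` bits gives a quantum protocol with prior
entanglement that exchanges `2 d` qubits and is as good. -/
theorem exists_quantum (P : RProt X Y) (d : ℕ) (hd : ∀ r, (P.tree r).depth ≤ d)
    (F : X → Y → Bool) :
    ∃ Q : QProt X Y, ∀ x y, Q.success (2 * d) F x y = P.success F x y := by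
  refine ⟨simProt (2 * d + 1) P.prob P.nonneg P.total (gA P.tree _) (gB P.tree _)
    (fun r m => ((P.tree r).node m d).label), fun x y => ?_⟩
  rw [success_sim _ _ _ _ _ _ F x y (2 * d) (by omega)]
  unfold RProt.success
  refine Finset.sum_congr rfl fun r _ => ?_
  have hlab : ∀ t, 2 * d ≤ t → ((P.tree r).node
      (hist (msgOf (gA P.tree (2 * d + 1)) (gB P.tree (2 * d + 1)) x y r) t) d).label =
      (P.tree r).eval x y := by
    intro t ht
    rw [node_hist P.tree (2 * d + 1) x y r d t (by omega) ht]
    have h1 : ((P.tree r).path x y d).depth = 0 := by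
      have := Prot.depth_path (P.tree r) x y d
      have := hd r
      omega
    rw [Prot.label_eq _ h1 x y, Prot.eval_path]
  have he : Even (2 * d) := even_two_mul d
  have e1 : (cstate (gA P.tree (2 * d + 1)) (gB P.tree (2 * d + 1)) x y (2 * d) r).1.2 =
      hist (msgOf (gA P.tree (2 * d + 1)) (gB P.tree (2 * d + 1)) x y r) (2 * d + 1) := by
    unfold cstate
    simp only [if_pos he]
  have e2 : (cstate (gA P.tree (2 * d + 1)) (gB P.tree (2 * d + 1)) x y (2 * d) r).2.2.2 =
      hist (msgOf (gA P.tree (2 * d + 1)) (gB P.tree (2 * d + 1)) x y r) (2 * d) := by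
    unfold cstate
    simp only [if_pos he]
  rw [e1, e2, hlab _ (by omega), hlab _ le_rfl]
  simp only [and_self]

theorem quantCC_le (P : RProt X Y) (d : ℕ) (hd : ∀ r, (P.tree r).depth ≤ d)
    (F : X → Y → Bool) (hF : ∀ x y, 2 / 3 ≤ P.success F x y) : quantCC F ≤ 2 * d := by
  obtain ⟨Q, hQ⟩ := exists_quantum P d hd F
  refine Nat.sInf_le ⟨Q, fun x y => ?_⟩
  rw [hQ]
  exact hF x y

theorem randCC_le (P : RProt X Y) (d : ℕ) (hd : ∀ r, (P.tree r).depth ≤ d)
    (F : X → Y → Bool) (hF : ∀ x y, 2 / 3 ≤ P.success F x y) : randCC F ≤ d :=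
  Nat.sInf_le ⟨P, hd, hF⟩

end Pool.Agent.TH115.QC
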