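import Mathlib
import Pool.Agent.TH115.QC.Defs

/-!
# The rank lower bound, and the trivial protocol
-/

set_option autoImplicit false

namespace Pool.Agent.TH115.QC

open Finset

variable {X Y : Type}

/-- The communication matrix of `F`, restricted to the inputs `x i`, `y j`. -/
def commMat {n : ℕ} (F : X → Y → Bool) (x : Fin n → X) (y : Fin n → Y) :
    Matrix (Fin n) (Fin n) ℚ := fun i j => if F (x i) (y j) = true then 1 else 0

theorem rank_add_le' {n : ℕ} (A B : Matrix (Fin n) (Fin n) ℚ) :
    (A + B).rank ≤ A.rank + B.rank := by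
  unfold Matrix.rank
  rw [Matrix.mulVecLin_add]
  refine (Submodule.finrank_mono ?_).trans (Submodule.finrank_add_le_finrank_add_finrank _ _)
  rintro _ ⟨v, rfl⟩
  exact Submodule.add_mem_sup ⟨v, rfl⟩ ⟨v, rfl⟩

theorem rank_eval_le {n : ℕ} (P : Prot X Y) (x : Fin n → X) (y : Fin n → Y) :
    (commMat P.eval x y).rank ≤ 2 ^ P.depth := by
  induction P with
  | leaf o =>
    have : commMat (Prot.leaf o : Prot X Y).eval x y =
        Matrix.vecMulVec (fun _ => if o = true then (1 : ℚ) else 0) (fun _ => 1) := by
      ext i j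
      cases o <;> simp [commMat, Prot.eval, Matrix.vecMulVec_apply]
    rw [this]
    exact (Matrix.rank_vecMulVec_le _ _).trans (by simp [Prot.depth])
  | alice p s t ihs iht =>
    have : commMat (Prot.alice p s t).eval x y =
        Matrix.diagonal (fun i => if p (x i) = true then (0 : ℚ) else 1) * commMat s.eval x y +
        Matrix.diagonal (fun i => if p (x i) = true then (1 : ℚ) else 0) * commMat t.eval x y := by
      ext i j
      rw [Matrix.add_apply, Matrix.diagonal_mul, Matrix.diagonal_mul]
      unfold commMat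
      by_cases h : p (x i) = true <;> simp [Prot.eval, h]
    rw [this]
    refine (rank_add_le' _ _).trans ?_
    have h1 := Matrix.rank_mul_le_right
      (Matrix.diagonal (fun i => if p (x i) = true then (0 : ℚ) else 1)) (commMat s.eval x y)
    have h2 := Matrix.rank_mul_le_right
      (Matrix.diagonal (fun i => if p (x i) = true then (1 : ℚ) else 0)) (commMat t.eval x y)
    have h3 : (2 : ℕ) ^ s.depth ≤ 2 ^ (max s.depth t.depth) :=
      Nat.pow_le_pow_right (by norm_num) (le_max_left _ _)
    have h4 : (2 : ℕ) ^ t.depth ≤ 2 ^ (max s.depth t.depth) :=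
      Nat.pow_le_pow_right (by norm_num) (le_max_right _ _)
    show _ ≤ 2 ^ (max s.depth t.depth + 1)
    rw [pow_succ]
    omega
  | bob p s t ihs iht =>
    have : commMat (Prot.bob p s t).eval x y =
        commMat s.eval x y * Matrix.diagonal (fun i => if p (y i) = true then (0 : ℚ) else 1) +
        commMat t.eval x y * Matrix.diagonal (fun i => if p (y i) = true then (1 : ℚ) else 0) := by
      ext i j
      rw [Matrix.add_apply, Matrix.mul_diagonal, Matrix.mul_diagonal]
      unfold commMat
      by_cases h : p (y j) = true <;> simp [Prot.eval, h]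
    rw [this]
    refine (rank_add_le' _ _).trans ?_
    have h1 := Matrix.rank_mul_le_left (commMat s.eval x y)
      (Matrix.diagonal (fun i => if p (y i) = true then (0 : ℚ) else 1))
    have h2 := Matrix.rank_mul_le_left (commMat t.eval x y)
      (Matrix.diagonal (fun i => if p (y i) = true then (1 : ℚ) else 0))
    have h3 : (2 : ℕ) ^ s.depth ≤ 2 ^ (max s.depth t.depth) :=
      Nat.pow_le_pow_right (by norm_num) (le_max_left _ _)
    have h4 : (2 : ℕ) ^ t.depth ≤ 2 ^ (max s.depth t.depth) :=
      Nat.pow_le_pow_right (by norm_num) (le_max_right _ _)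
    show _ ≤ 2 ^ (max s.depth t.depth + 1)
    rw [pow_succ]
    omega

/-- The matrix `(min(i, j) + 1) mod 2` for `0 ≤ i, j < n` has rank `n`. -/
def parMat (n : ℕ) : Matrix (Fin n) (Fin n) ℚ :=
  fun i j => if (min (i : ℕ) (j : ℕ) + 1) % 2 = 1 then 1 else 0

/-- The lower triangular matrix of ones. -/
def triMat (n : ℕ) : Matrix (Fin n) (Fin n) ℚ := fun i j => if j ≤ i then 1 else 0

theorem sum_alt (m : ℕ) :
    ∑ k ∈ Finset.range (m + 1), (-1 : ℚ) ^ k = if (m + 1) % 2 = 1 then 1 else 0 := by
  induction m with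
  | zero => simp
  | succ m ih =>
    rw [Finset.sum_range_succ, ih]
    rcases Nat.even_or_odd m with h | h
    · have h1 : (m + 1) % 2 = 1 := by
        obtain ⟨k, rfl⟩ := h
        omega
      have h2 : ¬ (m + 1 + 1) % 2 = 1 := by
        obtain ⟨k, rfl⟩ := h
        omega
      rw [if_pos h1, if_neg h2, pow_succ, h.neg_one_pow]
      norm_num
    · have h1 : ¬ (m + 1) % 2 = 1 := by
        obtain ⟨k, rfl⟩ := h
        omega
      have h2 : (m + 1 + 1) % 2 = 1 := by
        obtain ⟨k, rfl⟩ := h
        omega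
      rw [if_neg h1, if_pos h2, pow_succ, h.neg_one_pow]
      norm_num

theorem parMat_eq (n : ℕ) :
    parMat n = triMat n * Matrix.diagonal (fun k : Fin n => (-1 : ℚ) ^ (k : ℕ)) *
      (triMat n).transpose := by
  ext i j
  rw [Matrix.mul_apply]
  simp only [Matrix.mul_diagonal, Matrix.transpose_apply]
  unfold parMat triMat
  rw [← sum_alt]
  have h1 : ∀ k : Fin n, (if k ≤ i then (1 : ℚ) else 0) * (-1) ^ (k : ℕ) *
      (if k ≤ j then 1 else 0) = if (k : ℕ) < min (i : ℕ) (j : ℕ) + 1 then (-1) ^ (k : ℕ) else 0 := by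
    intro k
    by_cases hi : k ≤ i
    · by_cases hj : k ≤ j
      · have : (k : ℕ) < min (i : ℕ) (j : ℕ) + 1 :=
          Nat.lt_succ_of_le (le_min (Fin.le_def.1 hi) (Fin.le_def.1 hj))
        simp [hi, hj, this]
      · have : ¬ (k : ℕ) < min (i : ℕ) (j : ℕ) + 1 := by
          intro h
          exact hj (Fin.le_def.2 ((Nat.le_of_lt_succ h).trans (min_le_right _ _)))
        simp only [if_pos hi, if_neg hj, if_neg this, mul_zero]
    · have : ¬ (k : ℕ) < min (i : ℕ) (j : ℕ) + 1 := by
        intro h
        exact hi (Fin.le_def.2 ((Nat.le_of_lt_succ h).trans (min_le_left _ _)))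
      simp only [if_neg hi, if_neg this, zero_mul]
  rw [Finset.sum_congr rfl fun k _ => h1 k]
  rw [Fin.sum_univ_eq_sum_range (fun k => if k < min (i : ℕ) (j : ℕ) + 1 then (-1 : ℚ) ^ k else 0) n]
  rw [← Finset.sum_filter]
  apply Finset.sum_congr _ fun _ _ => rfl
  ext k
  simp only [Finset.mem_range, Finset.mem_filter]
  constructor
  · intro h
    exact ⟨by have := i.isLt; have := min_le_left (i : ℕ) (j : ℕ); omega, h⟩
  · intro h
    exact h.2

theorem det_triMat (n : ℕ) : (triMat n).det = 1 := by
  rw [Matrix.det_of_isLowerTriangular]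
  · simp [triMat]
  · intro i j hij
    have : i < j := hij
    simp [triMat, this]

theorem rank_parMat (n : ℕ) : (parMat n).rank = n := by
  have hdet : (parMat n).det ≠ 0 := by
    rw [parMat_eq, Matrix.det_mul, Matrix.det_mul, Matrix.det_transpose, det_triMat,
      Matrix.det_diagonal]
    simp only [one_mul, mul_one]
    exact Finset.prod_ne_zero_iff.2 fun k _ => pow_ne_zero _ (by norm_num)
  have hu : IsUnit (parMat n) := by
    rw [Matrix.isUnit_iff_isUnit_det]
    exact isUnit_iff_ne_zero.2 hdet
  rw [Matrix.rank_of_isUnit _ hu, Fintype.card_fin]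

/-! ### The trivial protocol -/

/-- Alice sends the last `w` bits of the number `m x`; the protocol goes on with `cont v`, where
`v` is the number that was sent. -/
def sendA : ℕ → (X → ℕ) → (ℕ → Prot X Y) → Prot X Y
  | 0, _, cont => cont 0
  | w + 1, m, cont =>
    Prot.alice (fun x => decide (m x % 2 = 1))
      (sendA w (fun x => m x / 2) (fun v => cont (2 * v)))
      (sendA w (fun x => m x / 2) (fun v => cont (2 * v + 1)))

theorem eval_sendA (w : ℕ) (m : X → ℕ) (cont : ℕ → Prot X Y) (x : X) (y : Y) :
    (sendA w m cont).eval x y = (cont (m x % 2 ^ w)).eval x y := by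
  induction w generalizing m cont with
  | zero => simp [sendA, Nat.mod_one]
  | succ w ih =>
    have hmod : m x % 2 ^ (w + 1) = 2 * (m x / 2 % 2 ^ w) + m x % 2 := by
      rw [pow_succ', Nat.mod_mul]
      omega
    show (if decide (m x % 2 = 1) = true then (sendA w _ _).eval x y
      else (sendA w _ _).eval x y) = _
    rw [ih, ih]
    by_cases h : m x % 2 = 1
    · simp only [h, decide_true, if_true]
      rw [hmod, h]
    · have h0 : m x % 2 = 0 := by omega
      simp only [h, decide_false]
      rw [hmod, h0]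
      rfl

theorem depth_sendA (w : ℕ) (m : X → ℕ) (cont : ℕ → Prot X Y) (d : ℕ)
    (hd : ∀ v, (cont v).depth ≤ d) : (sendA w m cont).depth ≤ w + d := by
  induction w generalizing m cont with
  | zero => simpa [sendA] using hd 0
  | succ w ih =>
    show max (sendA w _ _).depth (sendA w _ _).depth + 1 ≤ _
    have h1 := ih (fun x => m x / 2) (fun v => cont (2 * v)) (fun v => hd _)
    have h2 := ih (fun x => m x / 2) (fun v => cont (2 * v + 1)) (fun v => hd _)
    have := max_le h1 h2
    omega

/-- Every function on a finite set of inputs of Alice has a deterministic protocol. -/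
theorem exists_prot [Finite X] (F : X → Y → Bool) :
    ∃ P : Prot X Y, ∀ x y, P.eval x y = F x y := by
  classical
  obtain ⟨n, ⟨e⟩⟩ := Finite.exists_equiv_fin X
  by_cases hX : IsEmpty X
  · exact ⟨Prot.leaf true, fun x => (hX.false x).elim⟩
  rw [not_isEmpty_iff] at hX
  obtain ⟨x0⟩ := hX
  refine ⟨sendA n (fun x => (e x : ℕ)) (fun v => Prot.bob (fun y => F (if h : v < n then
    e.symm ⟨v, h⟩ else x0) y) (Prot.leaf false) (Prot.leaf true)), fun x y => ?_⟩
  rw [eval_sendA]
  have h1 : (e x : ℕ) % 2 ^ n = e x := Nat.mod_eq_of_lt ((e x).isLt.trans Nat.lt_two_pow_self)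
  rw [h1]
  simp only [Fin.is_lt, dif_pos, Fin.eta, Equiv.symm_apply_apply, Prot.eval]
  by_cases h : F x y = true
  · simp [h]
  · simp [h]

theorem detCC_spec [Finite X] (F : X → Y → Bool) :
    ∃ P : Prot X Y, P.depth ≤ detCC F ∧ ∀ x y, P.eval x y = F x y := by
  have hne : {d | ∃ P : Prot X Y, P.depth ≤ d ∧ ∀ x y, P.eval x y = F x y}.Nonempty := by
    obtain ⟨P, hP⟩ := exists_prot F
    exact ⟨P.depth, P, le_rfl, hP⟩
  exact Nat.sInf_mem hne

/-- The rank lower bound. -/
theorem rank_le_two_pow_detCC [Finite X] {n : ℕ} (F : X → Y → Bool) (x : Fin n → X)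
    (y : Fin n → Y) : (commMat F x y).rank ≤ 2 ^ detCC F := by
  obtain ⟨P, hP, hF⟩ := detCC_spec F
  have : F = P.eval := by
    funext a b
    exact (hF a b).symm
  calc (commMat F x y).rank = (commMat P.eval x y).rank := by rw [← this]
    _ ≤ 2 ^ P.depth := rank_eval_le P x y
    _ ≤ 2 ^ detCC F := Nat.pow_le_pow_right (by norm_num) hP

end Pool.Agent.TH115.QC
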