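import Mathlib
import Pool.Agent.TH115.QC.Lower

/-!
# A public-coin protocol for the parity of the minimum of two numbers
-/

set_option autoImplicit false

namespace Pool.Agent.TH115.QC

open Finset

variable {X Y : Type}

/-- Alice announces the parity of her number, which is the output. -/
def parA (a : X → ℕ) : Prot X Y :=
  Prot.alice (fun x => decide (a x % 2 = 1)) (Prot.leaf false) (Prot.leaf true)

/-- Bob announces the parity of his number, which is the output. -/
def parB (b : Y → ℕ) : Prot X Y :=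
  Prot.bob (fun y => decide (b y % 2 = 1)) (Prot.leaf false) (Prot.leaf true)

theorem eval_parA (a : X → ℕ) (x : X) (y : Y) :
    (parA a : Prot X Y).eval x y = decide (a x % 2 = 1) := by
  unfold parA Prot.eval Prot.eval
  by_cases h : a x % 2 = 1 <;> simp [h]

theorem eval_parB (b : Y → ℕ) (x : X) (y : Y) :
    (parB b : Prot X Y).eval x y = decide (b y % 2 = 1) := by
  unfold parB Prot.eval Prot.eval
  by_cases h : b y % 2 = 1 <;> simp [h]

/-- Binary search, with the hash function `h`, for the least `i` such that `a x` and `b y` agree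
after division by `2 ^ i`. At the end the smaller number is known, and its owner announces its
parity. -/
def search (w : ℕ) (a : X → ℕ) (b : Y → ℕ) (h : ℕ → ℕ) : ℕ → ℕ → Prot X Y
  | 0, j =>
    Prot.alice (fun x => decide (a x / 2 ^ j % 2 = 1)) (parA a)
      (Prot.bob (fun y => decide (b y / 2 ^ j % 2 = 1)) (parB b) (parA a))
  | t + 1, j =>
    sendA w (fun x => h (a x / 2 ^ (j + 2 ^ t))) (fun v =>
      Prot.bob (fun y => decide (h (b y / 2 ^ (j + 2 ^ t)) = v))
        (search w a b h t (j + 2 ^ t)) (search w a b h t j))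

theorem depth_search (w : ℕ) (a : X → ℕ) (b : Y → ℕ) (h : ℕ → ℕ) (t j : ℕ) :
    (search w a b h t j).depth ≤ 3 + t * (w + 1) := by
  induction t generalizing j with
  | zero => simp [search, Prot.depth, parA, parB]
  | succ t ih =>
    have h1 := ih (j + 2 ^ t)
    have h2 := ih j
    refine (depth_sendA w _ _ (3 + t * (w + 1) + 1) fun v => ?_).trans ?_
    · show max _ _ + 1 ≤ _
      have := max_le h1 h2
      omega
    · have : (t + 1) * (w + 1) = t * (w + 1) + (w + 1) := by ring
      omega

theorem lt_of_div_lt {A B c : ℕ} (h : A / c < B / c) : A < B := by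
  by_contra hn
  exact absurd (Nat.div_le_div_right (c := c) (not_lt.1 hn)) (not_le.2 h)

theorem eval_search (w : ℕ) (a : X → ℕ) (b : Y → ℕ) (h : ℕ → ℕ) (hw : ∀ u, h u < 2 ^ w)
    (x : X) (y : Y) (hgood : ∀ i, h (a x / 2 ^ i) = h (b y / 2 ^ i) → a x / 2 ^ i = b y / 2 ^ i)
    (t j : ℕ) (h1 : a x / 2 ^ (j + 2 ^ t) = b y / 2 ^ (j + 2 ^ t))
    (h2 : j = 0 ∨ a x / 2 ^ j ≠ b y / 2 ^ j) :
    (search w a b h t j).eval x y = decide (min (a x) (b y) % 2 = 1) := by
  induction t generalizing j with
  | zero =>
    have hdiv : a x / 2 ^ j / 2 = b y / 2 ^ j / 2 := by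
      rw [Nat.div_div_eq_div_mul, Nat.div_div_eq_div_mul, ← pow_succ]
      simpa using h1
    show (if decide (a x / 2 ^ j % 2 = 1) = true then
      (if decide (b y / 2 ^ j % 2 = 1) = true then (parA a : Prot X Y).eval x y
        else (parB b : Prot X Y).eval x y) else (parA a : Prot X Y).eval x y) = _
    rw [eval_parA, eval_parB]
    by_cases ha : a x / 2 ^ j % 2 = 1
    · by_cases hb : b y / 2 ^ j % 2 = 1
      · have heq : a x / 2 ^ j = b y / 2 ^ j := by omega
        have hj : j = 0 := h2.resolve_right (fun hne => hne heq)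
        subst hj
        simp only [pow_zero, Nat.div_one] at heq
        simp [ha, hb, heq]
      · have hlt : b y / 2 ^ j < a x / 2 ^ j := by omega
        have := lt_of_div_lt hlt
        simp [ha, hb, min_eq_right this.le]
    · have hle : a x ≤ b y := by
        rcases h2 with rfl | hne
        · simp only [pow_zero, Nat.div_one] at hdiv ha
          omega
        · have hlt : a x / 2 ^ j < b y / 2 ^ j := by omega
          exact (lt_of_div_lt hlt).le
      simp [ha, min_eq_left hle]
  | succ t ih =>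
    show (sendA w _ _).eval x y = _
    rw [eval_sendA, Nat.mod_eq_of_lt (hw _)]
    show (if decide (h (b y / 2 ^ (j + 2 ^ t)) = h (a x / 2 ^ (j + 2 ^ t))) = true then
      (search w a b h t j).eval x y else (search w a b h t (j + 2 ^ t)).eval x y) = _
    by_cases hh : h (b y / 2 ^ (j + 2 ^ t)) = h (a x / 2 ^ (j + 2 ^ t))
    · simp only [hh, decide_true, if_true]
      exact ih j (hgood _ hh.symm) h2
    · simp only [hh, decide_false]
      refine ih (j + 2 ^ t) ?_ (Or.inr fun he => hh (by rw [he]))
      have : j + 2 ^ t + 2 ^ t = j + 2 ^ (t + 1) := by rw [pow_succ]; ring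
      rw [this]
      exact h1

/-! ### The random hash function -/

/-- The hash function given by a table. -/
def hashOf {N w : ℕ} (r : Fin N → Fin (2 ^ w)) (u : ℕ) : ℕ :=
  if h : u < N then (r ⟨u, h⟩ : ℕ) else 0

theorem hashOf_lt {N w : ℕ} (r : Fin N → Fin (2 ^ w)) (u : ℕ) : hashOf r u < 2 ^ w := by
  unfold hashOf
  split_ifs with h
  · exact (r ⟨u, h⟩).isLt
  · positivity

/-- Two different keys collide for at most the fraction `1 / M` of all tables. -/
theorem collide {N M : ℕ} (u v : Fin N) (huv : u ≠ v) :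
    (univ.filter fun r : Fin N → Fin M => r u = r v).card * M ≤
      Fintype.card (Fin N → Fin M) := by
  classical
  have h1 : ((univ.filter fun r : Fin N → Fin M => r u = r v) ×ˢ (univ : Finset (Fin M))).card ≤
      (univ : Finset (Fin N → Fin M)).card := by
    apply Finset.card_le_card_of_injOn (fun z => Function.update z.1 u z.2)
    · intro z _
      exact mem_univ _
    · rintro ⟨r, c⟩ hr ⟨r', c'⟩ hr' heq
      simp only [coe_product, coe_filter, mem_univ, true_and, coe_univ, Set.mem_prod,
        Set.mem_ofPred_eq, Set.mem_univ, and_true] at hr hr'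
      simp only at heq
      have hc : c = c' := by
        have := congrFun heq u
        simpa using this
      have hrest : ∀ i, i ≠ u → r i = r' i := by
        intro i hi
        have := congrFun heq i
        simpa [Function.update_of_ne hi] using this
      have hrr : r = r' := by
        funext i
        by_cases hi : i = u
        · rw [hi, hr, hr', hrest v (fun e => huv e.symm)]
        · exact hrest i hi
      rw [hc, hrr]
  rw [Finset.card_product] at h1
  simpa using h1

open Classical in
/-- The tables that are bad for the numbers `A` and `B`. -/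
noncomputable def badSet (N s A B : ℕ) : Finset (Fin N → Fin (2 ^ (s + 2))) :=
  univ.filter fun r =>
    ¬ ∀ i, hashOf r (A / 2 ^ i) = hashOf r (B / 2 ^ i) → A / 2 ^ i = B / 2 ^ i

theorem mem_badSet {N s A B : ℕ} {r : Fin N → Fin (2 ^ (s + 2))} : r ∈ badSet N s A B ↔
    ¬ ∀ i, hashOf r (A / 2 ^ i) = hashOf r (B / 2 ^ i) → A / 2 ^ i = B / 2 ^ i := by
  simp [badSet]

theorem bad_card (N s A B : ℕ) (hN : N ≤ 2 ^ 2 ^ s) (hA : A < N) (hB : B < N) :
    3 * (badSet N s A B).card ≤ Fintype.card (Fin N → Fin (2 ^ (s + 2))) := by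
  classical
  have hAi : ∀ i, A / 2 ^ i < N := fun i => (Nat.div_le_self _ _).trans_lt hA
  have hBi : ∀ i, B / 2 ^ i < N := fun i => (Nat.div_le_self _ _).trans_lt hB
  have hsub : badSet N s A B ⊆
      (Finset.range (2 ^ s)).biUnion (fun i => univ.filter fun r : Fin N → Fin (2 ^ (s + 2)) =>
        A / 2 ^ i ≠ B / 2 ^ i ∧ r ⟨A / 2 ^ i, hAi i⟩ = r ⟨B / 2 ^ i, hBi i⟩) := by
    intro r hr
    rw [mem_badSet] at hr
    simp only [not_forall] at hr
    obtain ⟨i, h1, h2⟩ := hr
    have hi : i < 2 ^ s := by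
      by_contra hn
      apply h2
      have hz : ∀ C, C < N → C / 2 ^ i = 0 := by
        intro C hC
        apply Nat.div_eq_of_lt
        exact (hC.trans_le hN).trans_le (Nat.pow_le_pow_right (by norm_num) (not_lt.1 hn))
      rw [hz A hA, hz B hB]
    simp only [mem_biUnion, mem_range, mem_filter, mem_univ, true_and]
    refine ⟨i, hi, h2, ?_⟩
    unfold hashOf at h1
    rw [dif_pos (hAi i), dif_pos (hBi i)] at h1
    exact Fin.ext h1
  have hcard : ∀ i, (univ.filter fun r : Fin N → Fin (2 ^ (s + 2)) =>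
        A / 2 ^ i ≠ B / 2 ^ i ∧ r ⟨A / 2 ^ i, hAi i⟩ = r ⟨B / 2 ^ i, hBi i⟩).card * 2 ^ (s + 2) ≤
      Fintype.card (Fin N → Fin (2 ^ (s + 2))) := by
    intro i
    by_cases h : A / 2 ^ i = B / 2 ^ i
    · simp [h]
    · have h3 : (univ.filter fun r : Fin N → Fin (2 ^ (s + 2)) =>
        A / 2 ^ i ≠ B / 2 ^ i ∧ r ⟨A / 2 ^ i, hAi i⟩ = r ⟨B / 2 ^ i, hBi i⟩) =
        univ.filter fun r : Fin N → Fin (2 ^ (s + 2)) =>
          r ⟨A / 2 ^ i, hAi i⟩ = r ⟨B / 2 ^ i, hBi i⟩ := by
        apply Finset.filter_congr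
        intro r _
        simp [h]
      rw [h3]
      exact collide _ _ (fun e => h (congrArg Fin.val e))
  have h4 := (Finset.card_le_card hsub).trans Finset.card_biUnion_le
  have h5 : (∑ i ∈ Finset.range (2 ^ s), (univ.filter fun r : Fin N → Fin (2 ^ (s + 2)) =>
        A / 2 ^ i ≠ B / 2 ^ i ∧ r ⟨A / 2 ^ i, hAi i⟩ = r ⟨B / 2 ^ i, hBi i⟩).card) * 2 ^ (s + 2) ≤
      2 ^ s * Fintype.card (Fin N → Fin (2 ^ (s + 2))) := by
    rw [Finset.sum_mul]
    refine (Finset.sum_le_sum fun i _ => hcard i).trans ?_
    rw [Finset.sum_const, Finset.card_range, smul_eq_mul]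
  have h6 := (Nat.mul_le_mul_right (2 ^ (s + 2)) h4).trans h5
  have h7 : 2 ^ s * (4 * (badSet N s A B).card) ≤
      2 ^ s * Fintype.card (Fin N → Fin (2 ^ (s + 2))) := by
    refine le_trans (le_of_eq ?_) h6
    generalize (badSet N s A B).card = e
    rw [pow_add]
    ring
  have h8 := Nat.le_of_mul_le_mul_left h7 (by positivity)
  omega

/-- The public-coin protocol for the parity of the minimum of `a x` and `b y`. -/
noncomputable def minProt (N s : ℕ) (a : X → ℕ) (b : Y → ℕ) : RProt X Y where
  R := Fin N → Fin (2 ^ (s + 2))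
  prob := fun _ => 1 / (Fintype.card (Fin N → Fin (2 ^ (s + 2))) : ℝ)
  nonneg := fun _ => by positivity
  total := by
    have : (Fintype.card (Fin N → Fin (2 ^ (s + 2))) : ℝ) ≠ 0 := by
      rw [Nat.cast_ne_zero]
      have : Nonempty (Fin N → Fin (2 ^ (s + 2))) := ⟨fun _ => ⟨0, by positivity⟩⟩
      exact Fintype.card_ne_zero
    rw [Finset.sum_const, Finset.card_univ, nsmul_eq_mul]
    field_simp
  tree := fun r => search (s + 2) a b (hashOf r) s 0

theorem minProt_success (N s : ℕ) (a : X → ℕ) (b : Y → ℕ) (hN : N ≤ 2 ^ 2 ^ s)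
    (ha : ∀ x, a x < N) (hb : ∀ y, b y < N) (x : X) (y : Y) :
    2 / 3 ≤ (minProt N s a b).success (fun x y => decide (min (a x) (b y) % 2 = 1)) x y := by
  classical
  set c : ℕ := Fintype.card (Fin N → Fin (2 ^ (s + 2))) with hc
  have hcpos : (0 : ℝ) < c := by
    rw [Nat.cast_pos, hc]
    have : Nonempty (Fin N → Fin (2 ^ (s + 2))) := ⟨fun _ => ⟨0, by positivity⟩⟩
    exact Fintype.card_pos
  set good : Finset (Fin N → Fin (2 ^ (s + 2))) := (badSet N s (a x) (b y))ᶜ with hgood
  have hbad := bad_card N s (a x) (b y) hN (ha x) (hb y)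
  have hsum : good.card + (badSet N s (a x) (b y)).card = c := by
    rw [hgood, Finset.card_compl_add_card]
  have h1 : (∑ r ∈ good, 1 / (c : ℝ)) ≤
      (minProt N s a b).success (fun x y => decide (min (a x) (b y) % 2 = 1)) x y := by
    have h2 : (minProt N s a b).success (fun x y => decide (min (a x) (b y) % 2 = 1)) x y =
        ∑ r : Fin N → Fin (2 ^ (s + 2)),
          if (search (s + 2) a b (hashOf r) s 0).eval x y = decide (min (a x) (b y) % 2 = 1)
          then 1 / (c : ℝ) else 0 := rfl
    rw [h2, ← Finset.sum_filter]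
    apply Finset.sum_le_sum_of_subset_of_nonneg
    · intro r hr
      rw [Finset.mem_filter]
      refine ⟨mem_univ _, ?_⟩
      rw [hgood, Finset.mem_compl, mem_badSet, not_not] at hr
      apply eval_search (s + 2) a b (hashOf r) (hashOf_lt r) x y hr s 0
      · have hz : ∀ C, C < N → C / 2 ^ (0 + 2 ^ s) = 0 := by
          intro C hC
          apply Nat.div_eq_of_lt
          rw [zero_add]
          exact hC.trans_le hN
        rw [hz _ (ha x), hz _ (hb y)]
      · exact Or.inl rfl
    · intro r _ _
      positivity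
  refine le_trans ?_ h1
  rw [Finset.sum_const, nsmul_eq_mul, mul_one_div, le_div_iff₀ hcpos]
  have h3 : 2 * c ≤ 3 * good.card := by omega
  have h4 : (2 * c : ℝ) ≤ 3 * good.card := by exact_mod_cast h3
  linarith

theorem minProt_depth (N s : ℕ) (a : X → ℕ) (b : Y → ℕ) (r : (minProt N s a b).R) :
    ((minProt N s a b).tree r).depth ≤ s ^ 2 + 3 * s + 3 := by
  refine (depth_search (s + 2) a b (hashOf r) s 0).trans ?_
  nlinarith

end Pool.Agent.TH115.QC
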